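import Mathlib
import Pool.Agent.Y353.RB.Curve
import Pool.Agent.Y932.RB
import Pool.Agent.Y185.RB

set_option autoImplicit false

/-!
# MP_3f5b22_an : every ramification index occurs

For every `k ≥ 1` there is a bouquet of loops (one vertex, `b = 0`) and weights of its loops such that the
Green's function of the periodic Jacobi matrix on its universal cover has a point of its Riemann
surface with ramification index exactly `k`.
-/

namespace Pool.Agent.Results.MP_3f5b22_an.EveryRamificationIndex

open Filter Topology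

/-- A graph with vertex set `V`; loops and multiple edges are allowed.  `D` is the set of directed
edges, `src e` the initial vertex of `e`, and `rev e` the same edge with the other direction. -/
structure Gr (V D : Type) where
  /-- initial vertex -/
  src : D → V
  /-- reversal -/
  rev : D → D
  rev_rev : ∀ e, rev (rev e) = e
  rev_ne : ∀ e, rev e ≠ e

/-- Any two vertices are joined by a chain of edges, and there is a vertex. -/
def Gr.Connected {V D : Type} (G : Gr V D) : Prop :=
  Nonempty V ∧ ∀ x y : V,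
    Relation.ReflTransGen (fun x y => ∃ e, G.src e = x ∧ G.src (G.rev e) = y) x y

/-- `T` is the universal cover of `G`, with covering map `ξ` on vertices and `η` on directed edges:
`T` is a tree, and the covering map is compatible with initial vertices and reversal and maps the
directed edges at `y` bijectively to those at `ξ y`. -/
structure IsUniversalCover {V D W : Type} (G : Gr V D) (T : SimpleGraph W) (ξ : W → V)
    (η : T.Dart → D) : Prop where
  tree : T.IsTree
  src : ∀ e : T.Dart, G.src (η e) = ξ e.fst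
  rev : ∀ e : T.Dart, η e.symm = G.rev (η e)
  bij : ∀ (y : W) (d : D), G.src d = ξ y → ∃! e : T.Dart, e.fst = y ∧ η e = d

/-- `ℓ²(W)`, complex valued. -/
abbrev L2 (W : Type) : Type := lp (fun _ : W => ℂ) 2

/-- Bounded operators on `ℓ²(W)`. -/
abbrev Op (W : Type) : Type := L2 W →L[ℂ] L2 W

/-- `H` is the periodic Jacobi matrix with parameters `a`, `b`:
`(H u)(y) = b(ξ y) u(y) + ∑_e a(η e) u(y')`, over the edges `e` of `T` from `y` to `y'`. -/
def IsJacobi {V D W : Type} (a : D → ℝ) (b : V → ℝ) (T : SimpleGraph W) (ξ : W → V)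
    (η : T.Dart → D) (H : Op W) : Prop :=
  ∀ (u : L2 W) (y : W), H u y = (b (ξ y) : ℂ) * u y +
    ∑' e : {e : T.Dart // e.fst = y}, (a (η e.1) : ℂ) * u e.1.snd

/-- the unit vector at `y` -/
noncomputable def unit {W : Type} (y : W) : L2 W := by
  classical exact lp.single 2 y (1 : ℂ)

/-- `(H - z) u = f` -/
def Solves {W : Type} (H : Op W) (z : ℂ) (f u : L2 W) : Prop := ∀ w : W, H u w - z * u w = f w

/-- On the upper half plane `H - z` is bijective and `G(z) = ⟨δ_y, (H - z)⁻¹ δ_y⟩`. -/
def IsGreen {W : Type} (H : Op W) (y : W) (G : ℂ → ℂ) : Prop :=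
  ∀ z : ℂ, 0 < z.im → (∀ f : L2 W, ∃! u : L2 W, Solves H z f u) ∧
    ∀ u : L2 W, Solves H z (unit y) u → G z = u y

/-- `P(z, G(z)) = 0` for all `z` in the upper half plane. -/
def Vanishes (P : MvPolynomial (Fin 2) ℂ) (G : ℂ → ℂ) : Prop :=
  ∀ z : ℂ, 0 < z.im → MvPolynomial.eval ![z, G z] P = 0

/-- The Riemann surface of the algebraic function given by `G` on the upper half plane has a point
of ramification index `k`: there is an injective analytic local parametrisation `t ↦ (Z t, U t)`
whose image lies on the curve (every polynomial relation between `z` and `G(z)` holds on it), and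
`Z - Z 0` vanishes at `0` to order exactly `k`. -/
def HasRamificationIndex (G : ℂ → ℂ) (k : ℕ) : Prop :=
  ∃ Z U : ℂ → ℂ, AnalyticAt ℂ Z 0 ∧ AnalyticAt ℂ U 0 ∧
    (∃ r : ℝ, 0 < r ∧ Set.InjOn (fun t => (Z t, U t)) (Metric.ball 0 r)) ∧
    (∀ P : MvPolynomial (Fin 2) ℂ, Vanishes P G →
      ∀ᶠ t in 𝓝 (0 : ℂ), MvPolynomial.eval ![Z t, U t] P = 0) ∧
    analyticOrderAt (fun t => Z t - Z 0) 0 = k

theorem unit_apply {W : Type} (y w : W) [Decidable (w = y)] :
    unit y w = if w = y then 1 else 0 := by
  classical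
  unfold unit
  rw [lp.single_apply]
  by_cases h : w = y
  · subst h; simp
  · simp [h]

theorem solves_iff {W : Type} (H : Op W) (z : ℂ) (f u : L2 W) :
    Solves H z f u ↔ H u - z • u = f := by
  constructor
  · intro h
    apply lp.ext
    funext w
    exact h w
  · rintro rfl w
    rfl

open Pool.Agent.Y353.RB

variable {ι : Type} [DecidableEq ι] [Fintype ι]

theorem unit_eq (y : Wd ι) : unit y = dl y := by
  classical
  apply lp.ext
  funext w
  rw [dl_apply, unit_apply]

theorem isGreen (c : ι → ℝ) : IsGreen (opH (wt c)) (e0 : Wd ι) (gr c) := by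
  intro z hz
  have hu := isUnit_sub (wt c) hz
  refine ⟨fun f => ?_, fun u h => ?_⟩
  · refine ⟨(Ring.inverse (opH (wt c) - z • 1)) f, ?_, ?_⟩
    · have h2 := Ring.mul_inverse_cancel _ hu
      exact (solves_iff _ _ _ _).2
        (congrArg (fun S : L2 (Wd ι) →L[ℂ] L2 (Wd ι) => S f) h2)
    · intro u h
      exact (inverse_apply (wt c) hz ((solves_iff _ _ _ _).1 h)).symm
  · rw [unit_eq, solves_iff] at h
    unfold gr
    rw [inverse_apply (wt c) hz h]

/-- the directed edges at `y` -/
noncomputable def star (y : Wd ι) : Lt ι ≃ {e : (Tr ι).Dart // e.fst = y} where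
  toFun := fun c => ⟨dart y c, rfl⟩
  invFun := fun e => lab e.1
  left_inv := fun c => lab_dart y c
  right_inv := fun e => by
    obtain ⟨e, he⟩ := e
    apply Subtype.ext
    change dart y (lab e) = e
    rw [← he, dart_lab]

theorem isJacobi (a : ι → ℝ) : IsJacobi (fun c : Lt ι => a c.1) (fun _ : Unit => 0)
    (Tr ι) (fun _ => ()) lab (opH a) := by
  intro u y
  rw [opH_apply, ← (star y).tsum_eq, tsum_fintype, Complex.ofReal_zero, zero_mul,
    zero_add]
  refine Finset.sum_congr rfl fun c _ => ?_
  have h1 : lab (star y c).1 = c := lab_dart y c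
  rw [h1]
  rfl

/-- The bouquet of loops indexed by `ι`: one vertex, and the directed edges `(i, true)`,
`(i, false)` for each `i`. -/
def bouquet (ι : Type) : Gr Unit (ι × Bool) where
  src := fun _ => ()
  rev := fun c => (c.1, !c.2)
  rev_rev := fun c => by simp
  rev_ne := fun c h => by
    have := congrArg Prod.snd h
    simp at this

omit [Fintype ι] in
theorem isCover : IsUniversalCover (bouquet ι) (Tr ι) (fun _ => ()) lab := by
  refine ⟨T_isTree, fun e => rfl, lab_symm, fun y d _ => ?_⟩
  refine ⟨dart y d, ⟨rfl, lab_dart y d⟩, ?_⟩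
  rintro e ⟨h1, h2⟩
  rw [← h1, ← h2, dart_lab]

theorem ramified {x ε : ι → ℝ} {L : ℕ} (hx : ∀ i, 1 < x i) (hε : ∀ i, ε i = 1 ∨ ε i = -1)
    (hxe : ∀ i j, x i = x j → ε i = ε j)
    (h1 : ∀ k < L, ∑ i, ε i * x i ^ (2 * k + 1) = (Fintype.card ι : ℝ) - 1)
    (h2 : ∑ i, ε i * x i ^ (2 * L + 1) ≠ (Fintype.card ι : ℝ) - 1) :
    HasRamificationIndex (gr fun i => 1 - 1 / x i ^ 2) (L + 1) := by
  set c : ι → ℝ := fun i => 1 - 1 / x i ^ 2 with hc
  have hx2 : ∀ i, 1 < x i ^ 2 := fun i => by nlinarith [hx i]
  have hc0 : ∀ i, 0 < c i := fun i => by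
    have : 1 / x i ^ 2 < 1 := by
      rw [div_lt_one (by linarith [hx2 i])]
      exact hx2 i
    simp only [hc]
    linarith
  have hc1 : ∀ i, c i < 1 := fun i => by
    have : 0 < 1 / x i ^ 2 := by
      have := hx2 i
      positivity
    simp only [hc]
    linarith
  have hce : ∀ i j, c i = c j → ε i = ε j := by
    intro i j h
    apply hxe
    have e1 : 1 / x i ^ 2 = 1 / x j ^ 2 := by
      simp only [hc] at h
      linarith
    have e2 : x i ^ 2 = x j ^ 2 := by
      rw [one_div, one_div] at e1
      exact inv_injective e1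
    have := hx i
    have := hx j
    exact (sq_eq_sq₀ (by linarith) (by linarith)).1 e2
  have hdom : Complex.I + 0 ∈ dom c := by
    rw [add_zero]
    exact I_mem_dom hc1
  have hadd : AnalyticAt ℂ (fun t : ℂ => Complex.I + t) 0 := analyticAt_const.add analyticAt_id
  have hne : Complex.I + (0 : ℂ) ≠ 0 := by
    rw [add_zero]
    exact Complex.I_ne_zero
  refine ⟨fun t => uf c ε (Complex.I + t) / (Complex.I + t), fun t => Complex.I + t, ?_, hadd,
    ⟨1, one_pos, ?_⟩, ?_, ?_⟩
  · have h3 : AnalyticAt ℂ (uf c ε) (Complex.I + 0) := uf_analytic hdom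
    exact (h3.comp (f := fun t : ℂ => Complex.I + t) hadd).div hadd hne
  · intro t _ t' _ h
    have := congrArg Prod.snd h
    exact add_left_cancel this
  · intro P hP
    have h3 := branch hc0 hc1 hε hce P hP
    have h4 : Filter.Tendsto (fun t : ℂ => Complex.I + t) (𝓝 0) (𝓝 (Complex.I + 0)) :=
      hadd.continuousAt
    rw [add_zero] at h4
    exact h4.eventually h3
  · have h5 := Pool.Agent.Y185.RBO.order x ε hx hε ((Fintype.card ι : ℝ) - 1) L
      (fun i t => (ε i : ℂ) * Pool.Agent.Y693.RB.rt (c i) (Complex.I + t))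
      (fun i => ?_) (fun i t => ?_) (fun i => ?_) h1 h2
    · exact h5
    · have h3 : AnalyticAt ℂ (Pool.Agent.Y693.RB.rt (c i)) (Complex.I + 0) :=
        rt_analytic (hdom i)
      exact analyticAt_const.mul (h3.comp (f := fun t : ℂ => Complex.I + t) hadd)
    · rw [mul_pow, rt_sq]
      have h6 : (ε i : ℂ) ^ 2 = 1 := by
        rcases hε i with h | h <;> rw [h] <;> norm_num
      rw [h6, one_mul]
    · simp only [add_zero]
      have h7 := rt_one (hx i)
      simp only [hc]
      rw [h7]
      push_cast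
      ring

/-- For every `k ≥ 1` there are a finite nonempty set `ι`, weights `a > 0` of the loops of the bouquet
`Γ` of loops indexed by `ι` (a finite connected graph which is not a tree), and a vertex `y` of its
universal cover `T`, such that the Green's function `G` at `y` of the periodic Jacobi matrix `H` on
`ℓ²(T)` with parameters `a` and `b = 0`, which is algebraic, has a point of its Riemann surface with
ramification index exactly `k`. -/
theorem result (k : ℕ) (hk : 1 ≤ k) : ∃ (ι W : Type) (_ : Fintype ι) (_ : Nonempty ι)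
    (a : ι × Bool → ℝ) (T : SimpleGraph W) (ξ : W → Unit) (η : T.Dart → ι × Bool) (H : Op W)
    (y : W) (G : ℂ → ℂ),
    (bouquet ι).Connected ∧ 2 * Fintype.card Unit ≤ Fintype.card (ι × Bool) ∧
    (∀ e, 0 < a e) ∧ (∀ e, a ((bouquet ι).rev e) = a e) ∧
    IsUniversalCover (bouquet ι) T ξ η ∧ IsJacobi a (fun _ => 0) T ξ η H ∧ IsGreen H y G ∧
    (∃ P : MvPolynomial (Fin 2) ℂ, P ≠ 0 ∧ Vanishes P G) ∧
    HasRamificationIndex G k := by
  classical
  obtain ⟨L, rfl⟩ : ∃ L, k = L + 1 := ⟨k - 1, by omega⟩
  obtain ⟨ι, hι, x, ε, hne, hx, hε, hxe, h1, h2⟩ := Pool.Agent.Y932.RB.nodes L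
  have hx2 : ∀ i, 1 < x i ^ 2 := fun i => by nlinarith [hx i]
  have hc0 : ∀ i, 0 < 1 - 1 / x i ^ 2 := fun i => by
    have : 1 / x i ^ 2 < 1 := by
      rw [div_lt_one (by linarith [hx2 i])]
      exact hx2 i
    linarith
  have hc1 : ∀ i, 1 - 1 / x i ^ 2 < 1 := fun i => by
    have : 0 < 1 / x i ^ 2 := by
      have := hx2 i
      positivity
    linarith
  refine ⟨ι, Wd ι, hι, hne, fun d => wt (fun i => 1 - 1 / x i ^ 2) d.1, Tr ι, fun _ => (), lab,
    opH (wt fun i => 1 - 1 / x i ^ 2), e0, gr fun i => 1 - 1 / x i ^ 2,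
    ⟨⟨()⟩, fun x y => Relation.ReflTransGen.refl⟩, ?_, ?_, fun e => rfl, isCover,
    isJacobi _, isGreen _, algebraic hc0 hc1, ramified hx hε hxe h1 h2⟩
  · rw [Fintype.card_prod, Fintype.card_bool, Fintype.card_unit]
    have : 0 < Fintype.card ι := Fintype.card_pos
    omega
  · intro d
    unfold wt
    have := Real.sqrt_pos.2 (hc0 d.1)
    linarith

end Pool.Agent.Results.MP_3f5b22_an.EveryRamificationIndex
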